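import Pool.Agent.L5helper59.DM.Defs
import Pool.Agent.L5helper18.DC.Persist

/-!
# A nondegenerate zero persists nearby under a coefficientwise limit (DM D3)
-/

set_option autoImplicit false

open MvPolynomial Filter Topology

namespace Pool.Agent.L5helper18.DM

open Pool.Agent.L5helper18.DC Pool.Agent.L5helper59.DM

theorem pt_persists {ι κ : Type} [Fintype ι] [Fintype κ] [DecidableEq ι] [DecidableEq κ]
    (hcard : Fintype.card ι = Fintype.card κ + 1) (F : MvPolynomial ι ℂ)
    (Fk : ℕ → MvPolynomial ι ℂ) (D : ℕ) (hdeg : ∀ k, (Fk k).totalDegree ≤ D)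
    (hlim : ∀ d, Tendsto (fun k => coeff d (Fk k)) atTop (𝓝 (coeff d F)))
    (w : κ → ι → ℂ) (p : ι → ℂ) (h : Pt F w p) (ε : ℝ) (hε : 0 < ε) :
    ∀ᶠ k in atTop, ∃ p' : ι → ℂ, (∀ i, ‖p' i - p i‖ ≤ ε) ∧ Pt (Fk k) w p' := by
  classical
  -- the exponents that occur
  set E : Finset (ι →₀ ℕ) := (Finsupp.finite_of_degree_le (σ := ι) D).toFinset with hE
  have hsupp : ∀ (G : MvPolynomial ι ℂ), G.totalDegree ≤ D → ∀ m, m ∉ E → coeff m G = 0 := by
    intro G hG m hm
    apply coeff_eq_zero_of_totalDegree_lt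
    refine lt_of_le_of_lt hG ?_
    have h2 : ¬ Finsupp.degree m ≤ D := by
      intro h
      exact hm (by rw [hE, Set.Finite.mem_toFinset]; exact h)
    have h3 := not_le.1 h2
    rwa [Finsupp.degree_apply] at h3
  have hF : ∀ m, m ∉ E → coeff m F = 0 := by
    intro m hm
    have h2 := hlim m
    have h3 : (fun k => coeff m (Fk k)) = fun _ => 0 := funext fun k => hsupp _ (hdeg k) m hm
    rw [h3] at h2
    exact tendsto_nhds_unique h2 tendsto_const_nhds
  -- the generic polynomial
  set P : MvPolynomial (E ⊕ ι) ℂ :=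
    ∑ m : E, X (Sum.inl m) * rename Sum.inr (monomial m.1 (1 : ℂ)) with hP
  have hspec : ∀ (G : MvPolynomial ι ℂ), (∀ m, m ∉ E → coeff m G = 0) →
      spec (fun m : E => coeff m.1 G) P = G := by
    intro G hG
    have h2 : spec (fun m : E => coeff m.1 G) P = ∑ m : E, monomial m.1 (coeff m.1 G) := by
      rw [hP, map_sum]
      refine Finset.sum_congr rfl fun m _ => ?_
      rw [map_mul, spec, aeval_X, Sum.elim_inl, aeval_rename]
      have h3 : (Sum.elim (fun a : E => C (coeff a.1 G)) X ∘ Sum.inr : ι → MvPolynomial ι ℂ) = X := by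
        funext i; rfl
      rw [h3, aeval_X_left, AlgHom.id_apply, C_mul_monomial, mul_one]
    rw [h2]
    ext d
    rw [coeff_sum]
    simp only [coeff_monomial]
    by_cases hd : d ∈ E
    · rw [Finset.sum_eq_single (⟨d, hd⟩ : E)]
      · simp
      · intro b _ hb
        rw [if_neg]
        intro h
        exact hb (Subtype.ext h)
      · intro h; exact absurd (Finset.mem_univ _) h
    · rw [hG d hd]
      apply Finset.sum_eq_zero
      intro b _
      rw [if_neg]
      intro h
      exact hd (h ▸ b.2)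
  -- the system
  set Q : Option κ → MvPolynomial (E ⊕ ι) ℂ := fun o =>
    match o with
    | none => P
    | some e => ∑ i, C (w e i) * pderiv (Sum.inr i) P with hQ
  have hQ0 : ∀ (G : MvPolynomial ι ℂ), (∀ m, m ∉ E → coeff m G = 0) → ∀ p : ι → ℂ,
      eval (Sum.elim (fun m : E => coeff m.1 G) p) (Q none) = eval p G := by
    intro G hG p
    rw [← eval_spec]
    simp only [hQ]
    rw [hspec G hG]
  have hQ1 : ∀ (G : MvPolynomial ι ℂ), (∀ m, m ∉ E → coeff m G = 0) → ∀ (p : ι → ℂ) (e : κ),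
      eval (Sum.elim (fun m : E => coeff m.1 G) p) (Q (some e)) =
        ∑ i, w e i * eval p (pderiv i G) := by
    intro G hG p e
    rw [← eval_spec]
    simp only [hQ]
    rw [map_sum, map_sum]
    refine Finset.sum_congr rfl fun i _ => ?_
    rw [map_mul, ← pderiv_spec, hspec G hG, map_mul]
    simp [spec]
  have hD0 : ∀ (G : MvPolynomial ι ℂ), (∀ m, m ∉ E → coeff m G = 0) → ∀ (p : ι → ℂ) (i : ι),
      eval (Sum.elim (fun m : E => coeff m.1 G) p) (pderiv (Sum.inr i) (Q none)) =
        eval p (pderiv i G) := by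
    intro G hG p i
    rw [← eval_spec, ← pderiv_spec]
    simp only [hQ]
    rw [hspec G hG]
  have hD1 : ∀ (G : MvPolynomial ι ℂ), (∀ m, m ∉ E → coeff m G = 0) → ∀ (p : ι → ℂ) (e : κ)
      (j : ι), eval (Sum.elim (fun m : E => coeff m.1 G) p) (pderiv (Sum.inr j) (Q (some e))) =
        ∑ i, w e i * eval p (pderiv j (pderiv i G)) := by
    intro G hG p e j
    rw [← eval_spec, ← pderiv_spec]
    simp only [hQ]
    rw [map_sum, map_sum, map_sum]
    refine Finset.sum_congr rfl fun i _ => ?_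
    rw [map_mul, ← pderiv_spec, hspec G hG]
    have h2 : spec (fun m : E => coeff m.1 G) (C (w e i) : MvPolynomial (E ⊕ ι) ℂ) =
        (C (w e i) : MvPolynomial ι ℂ) := by simp [spec]
    rw [h2, Derivation.leibniz, pderiv_C, smul_zero, add_zero, smul_eq_mul, map_mul, eval_C]
  -- the two forms of nondegeneracy
  have hiff : ∀ (G : MvPolynomial ι ℂ), (∀ m, m ∉ E → coeff m G = 0) → ∀ (p z : ι → ℂ),
      (∀ o, ∑ i, z i * eval (Sum.elim (fun m : E => coeff m.1 G) p)
        (pderiv (Sum.inr i) (Q o)) = 0) ↔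
      (∑ i, z i * eval p (pderiv i G) = 0 ∧
        ∀ e, ∑ i, ∑ j, z j * w e i * eval p (pderiv j (pderiv i G)) = 0) := by
    intro G hG p z
    have h2 : ∀ e, ∑ j, z j * eval (Sum.elim (fun m : E => coeff m.1 G) p)
        (pderiv (Sum.inr j) (Q (some e))) =
        ∑ i, ∑ j, z j * w e i * eval p (pderiv j (pderiv i G)) := by
      intro e
      rw [Finset.sum_comm]
      refine Finset.sum_congr rfl fun j _ => ?_
      rw [hD1 G hG, Finset.mul_sum]
      exact Finset.sum_congr rfl fun i _ => by ring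
    constructor
    · intro h
      refine ⟨?_, fun e => ?_⟩
      · rw [← h none]
        exact Finset.sum_congr rfl fun i _ => by rw [hD0 G hG]
      · rw [← h2 e]
        exact h (some e)
    · rintro ⟨ha, hb⟩ o
      rcases o with _ | e
      · rw [← ha]
        exact Finset.sum_congr rfl fun i _ => by rw [hD0 G hG]
      · rw [h2 e]
        exact hb e
  have hFk : ∀ k, ∀ m, m ∉ E → coeff m (Fk k) = 0 := fun k => hsupp _ (hdeg k)
  obtain ⟨h0, h1, h2⟩ := h
  have hU : {p' : ι → ℂ | ∀ i, ‖p' i - p i‖ ≤ ε} ∈ 𝓝 p := by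
    refine Filter.mem_of_superset (Metric.ball_mem_nhds p hε) fun p' hp' i => ?_
    rw [Metric.mem_ball, dist_eq_norm] at hp'
    exact (norm_le_pi_norm (p' - p) i).trans hp'.le
  have hev := zero_persists (by rw [hcard, Fintype.card_option]) Q
      (fun k => fun m : E => coeff m.1 (Fk k)) (fun m : E => coeff m.1 F)
      (tendsto_pi_nhds.2 fun m => hlim m.1) p (by
        intro o
        rcases o with _ | e
        · rw [hQ0 F hF]; exact h0
        · rw [hQ1 F hF]; exact h1 e) (by
        intro z hz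
        have h3 := (hiff F hF p z).1 hz
        exact h2 z h3.1 h3.2) _ hU
  filter_upwards [hev] with k hk
  obtain ⟨p', hp', hz, hn⟩ := hk
  refine ⟨p', hp', ?_, fun e => ?_, fun z hz1 hz2 => ?_⟩
  · rw [← hQ0 (Fk k) (hFk k)]
    exact hz none
  · rw [← hQ1 (Fk k) (hFk k)]
    exact hz (some e)
  · exact hn z ((hiff (Fk k) (hFk k) p' z).2 ⟨hz1, hz2⟩)

end Pool.Agent.L5helper18.DM
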